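import Pool.Agent.Helper52.MA.Sub

/-! # MA-1: the generic filter at the place `i` -/

set_option autoImplicit false
set_option linter.unusedSectionVars false

namespace Pool.Agent.Helper52.MA

open Set Pool.Agent.Helper33.HM

universe u

variable {I : Type u} [LinearOrder I] [WellFoundedLT I] {Ω : Type} [LinearOrder Ω]
  {code : I → Ω → Ω → Set (Cond I Ω)}

/-- MA-1 (file Gfil.lean).  The generic filter at the place `i`. -/
def Gv (i : I) (x : Ω) : RO (PC code) := RO.gen {p : PC code | ∃ y, p.c.f i = some y ∧ p ∈ Rv i y x}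

theorem gfil_mem_Gv {i : I} {x : Ω} {p : PC code} :
    p ∈ (Gv i x : RO (PC code)) ↔
      ∀ q, q ≤ p → ∃ r, r ≤ q ∧ ∃ z, r.c.f i = some z ∧ r ∈ (Rv i z x : RO (PC code)) := by
  rw [Gv, RO.mem_gen]
  constructor
  · intro h q hq
    obtain ⟨r, hr, a, ⟨z', hz', ha⟩, hra⟩ := h q hq
    obtain ⟨z, hz, hzr⟩ := PC.le_iff.1 hra i z' hz'
    exact ⟨r, hr, z, hz, Rv_trans i z z' x _ (RO.mem_inf.2 ⟨hzr, RO.mem_lower hra ha⟩)⟩
  · intro h q hq
    obtain ⟨r, hr, z, hz, hzr⟩ := h q hq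
    exact ⟨r, hr, r, ⟨z, hz, hzr⟩, le_rfl⟩

theorem gfil_Cv_le_Rv (i : I) (x y : Ω) {p : PC code} (h : p ∈ (Cv i x y : RO (PC code))) :
    p ∈ (Rv i x y : RO (PC code)) := by
  rw [Rv, RO.mem_himp]
  intro q hq _
  exact RO.mem_lower hq h

theorem gfil_refl (i : I) (x : Ω) (p : PC code) : p ∈ (Rv i x x : RO (PC code)) := by
  rw [Rv_refl]; exact RO.mem_top p

/-- every condition has an extension with a value at the place `i` -/
theorem gfil_value (i : I) (a : Ω) (q : PC code) : ∃ q', q' ≤ q ∧ ∃ z, q'.c.f i = some z := by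
  cases hq : q.c.f i with
  | some z => exact ⟨q, le_rfl, z, hq⟩
  | none =>
    refine ⟨PC.put q i a, ?_, a, ?_⟩
    · rw [PC.le_iff]
      intro j w hj
      have hne : j ≠ i := by
        rintro rfl
        rw [hq] at hj
        exact absurd hj (by simp)
      refine ⟨w, ?_, gfil_refl j w _⟩
      change (Cond.put q.c i a).f j = some w
      rw [Cond.put_f, if_neg hne]
      exact hj
    · change (Cond.put q.c i a).f i = some a
      rw [Cond.put_f, if_pos rfl]

theorem gen_filter (i : I) (D : Ω → Ω → RO (PC code)) (hD : ∀ a x, D a x ∈ S i) :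
    okV i ⊓ denV (Cv i) D ≤ filtV (Cv i) D (Gv i) := by
  intro p hp
  obtain ⟨hok, hden⟩ := RO.mem_inf.1 hp
  have hokp : ∀ q : PC code, q ≤ p → q ∈ (okV i : RO (PC code)) := fun q hq =>
    RO.mem_lower hq hok
  rw [filtV]
  simp only [RO.mem_inf, RO.mem_iInf, RO.mem_himp, RO.mem_iSup]
  refine ⟨⟨?_, ?_⟩, ?_⟩
  · rintro x y q _ ⟨h1, h2⟩
    rw [gfil_mem_Gv] at h1 ⊢
    intro q' hq'
    obtain ⟨r, hr, z, hz, hzx⟩ := h1 q' hq'
    exact ⟨r, hr, z, hz, Rv_trans i z x y _ (RO.mem_inf.2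
      ⟨hzx, gfil_Cv_le_Rv i x y (RO.mem_lower (hr.trans hq') h2)⟩)⟩
  · rintro x y q hq ⟨h1, h2⟩ q' hq'
    rw [gfil_mem_Gv] at h1 h2
    obtain ⟨r, hr, z1, hz1, hr1⟩ := h1 q' hq'
    obtain ⟨r', hr', z, hz, hrz⟩ := h2 r (hr.trans hq')
    obtain ⟨z2, hz2, hr2⟩ := PC.le_iff.1 hr' i z1 hz1
    have hzz : z2 = z := Option.some.inj (hz2.symm.trans hz)
    subst hzz
    have hok' : r' ∈ (okV i : RO (PC code)) := hokp r' (hr'.trans (hr.trans (hq'.trans hq)))
    have hx : r' ∈ (Rv i z2 x : RO (PC code)) :=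
      Rv_trans i z2 z1 x _ (RO.mem_inf.2 ⟨hr2, RO.mem_lower hr' hr1⟩)
    refine ⟨r', hr'.trans hr, z2, ?_, ?_, ?_⟩
    · rw [gfil_mem_Gv]
      intro s hs
      obtain ⟨w, hw, hsw⟩ := PC.le_iff.1 hs i z2 hz
      exact ⟨s, le_rfl, w, hw, hsw⟩
    · exact RO.mem_himp.1 hx r' le_rfl hok'
    · exact RO.mem_himp.1 hrz r' le_rfl hok'
  · intro a q hq
    obtain ⟨q', hq', z, hz⟩ := gfil_value i a q
    have hden' : q' ∈ denV (Cv i) D := RO.mem_lower (hq'.trans hq) hden
    rw [denV] at hden'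
    simp only [RO.mem_iInf, RO.mem_iSup, RO.mem_inf] at hden'
    obtain ⟨r, hr, y, hry, hrD⟩ := hden' a z q' le_rfl
    have hres : ∀ j, j ≤ i →
        (PC.mk (code := code) (Cond.put (Cond.glue i r.c q'.c) i y)).res j = r.res j := by
      intro j hj
      change (Cond.put (Cond.glue i r.c q'.c) i y).res j = r.c.res j
      rw [Cond.put_res _ _ _ hj, Cond.glue_res_le _ _ _ hj]
    have hmem : ∀ j, j ≤ i → ∀ U : RO (PC code), U ∈ S j → r ∈ U →
        (PC.mk (code := code) (Cond.put (Cond.glue i r.c q'.c) i y)) ∈ U := by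
      intro j hj U hU hrU
      rw [← mem_res_iff hU, hres j hj, mem_res_iff hU]
      exact hrU
    refine ⟨PC.mk (Cond.put (Cond.glue i r.c q'.c) i y), ?_, y, ?_, ?_⟩
    · refine le_trans ?_ hq'
      rw [PC.le_iff]
      intro j w hj
      rcases lt_trichotomy j i with hji | rfl | hji
      · obtain ⟨w', hw', hrw⟩ := PC.le_iff.1 hr j w hj
        refine ⟨w', ?_, hmem j hji.le _ (Rv_mem j w' w) hrw⟩
        change (Cond.put (Cond.glue i r.c q'.c) i y).f j = some w'
        rw [Cond.put_f, if_neg hji.ne, Cond.glue_f, if_pos hji]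
        exact hw'
      · refine ⟨y, ?_, ?_⟩
        · change (Cond.put (Cond.glue j r.c q'.c) j y).f j = some y
          rw [Cond.put_f, if_pos rfl]
        · have hwz : w = z := Option.some.inj (hj.symm.trans hz)
          subst hwz
          exact hmem j le_rfl _ (Rv_mem j y w) (gfil_Cv_le_Rv j y w hry)
      · refine ⟨w, ?_, gfil_refl j w _⟩
        change (Cond.put (Cond.glue i r.c q'.c) i y).f j = some w
        rw [Cond.put_f, if_neg hji.ne', Cond.glue_f, if_neg (not_lt.2 hji.le)]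
        exact hj
    · rw [gfil_mem_Gv]
      intro s hs
      have hy : (PC.mk (code := code) (Cond.put (Cond.glue i r.c q'.c) i y)).c.f i = some y := by
        change (Cond.put (Cond.glue i r.c q'.c) i y).f i = some y
        rw [Cond.put_f, if_pos rfl]
      obtain ⟨w, hw, hsw⟩ := PC.le_iff.1 hs i y hy
      exact ⟨s, le_rfl, w, hw, hsw⟩
    · exact hmem i le_rfl _ (hD a y) hrD

end Pool.Agent.Helper52.MA
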